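import Mathlib

/-!
# Algebraic elements in an ideal without idempotents, and the algebraicity of `h` in an
`sl_2`-triple

`E` is an algebra over the rational numbers, `J` a subspace closed under multiplication. If `J`
contains no idempotent except `0`, then the algebraic elements of `J` are nilpotent.
In an `sl_2`-triple `(e, h, f)` with `e` nilpotent the element `h` is algebraic.
-/

set_option autoImplicit false

open Polynomial

namespace Pool.Agent.Helper70.NP

variable {E : Type*} [Ring E] [Algebra ℚ E]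

/-- polynomials without constant term map a subspace closed under multiplication to itself -/
theorem aeval_X_mul_mem (J : Submodule ℚ E) (hmul : ∀ a ∈ J, ∀ b ∈ J, a * b ∈ J) {a : E}
    (ha : a ∈ J) (R : ℚ[X]) : aeval a (X * R) ∈ J := by
  have hpow : ∀ n : ℕ, a ^ (n + 1) ∈ J := by
    intro n
    induction n with
    | zero => simpa using ha
    | succ n ih => rw [pow_succ]; exact hmul _ ih _ ha
  induction R using Polynomial.induction_on' with
  | add p q hp hq => rw [mul_add, map_add]; exact J.add_mem hp hq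
  | monomial n c =>
    have : aeval a (X * monomial n c) = c • a ^ (n + 1) := by
      rw [X_mul_monomial, aeval_monomial, Algebra.smul_def]
    rw [this]
    exact J.smul_mem _ (hpow n)

/-- An algebraic element of a non-unital subalgebra without idempotents except `0` is nilpotent. -/
theorem isNilpotent_of_aeval (J : Submodule ℚ E) (hmul : ∀ a ∈ J, ∀ b ∈ J, a * b ∈ J)
    (hno : ∀ e ∈ J, e * e = e → e = 0) {a : E} (ha : a ∈ J) {P : ℚ[X]} (hP : P ≠ 0)
    (h : aeval a P = 0) : IsNilpotent a := by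
  have hP' : X * P ≠ 0 := mul_ne_zero X_ne_zero hP
  have hXP : aeval a (X * P) = 0 := by rw [map_mul, h, mul_zero]
  obtain ⟨Q, hQ, hQ'⟩ := Polynomial.exists_eq_pow_rootMultiplicity_mul_and_not_dvd (X * P) hP' 0
  rw [map_zero, sub_zero] at hQ hQ'
  obtain ⟨s, hs⟩ : ∃ s, s = rootMultiplicity 0 (X * P) := ⟨_, rfl⟩
  rw [← hs] at hQ
  have hs0 : s ≠ 0 := by
    have : 0 < rootMultiplicity 0 (X * P) := by
      rw [rootMultiplicity_pos hP']
      simp [IsRoot]
    omega
  have hcop : IsCoprime (X ^ s : ℚ[X]) Q :=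
    ((irreducible_X.coprime_iff_not_dvd).2 hQ').pow_left
  obtain ⟨u, v, huv⟩ := hcop
  -- the idempotent
  have he : aeval a (u * X ^ s) ∈ J := by
    obtain ⟨t, ht⟩ := Nat.exists_eq_succ_of_ne_zero hs0
    have : u * X ^ s = X * (u * X ^ t) := by rw [ht, Nat.succ_eq_add_one, pow_succ]; ring
    rw [this]
    exact aeval_X_mul_mem J hmul ha _
  have hzero : aeval a (X ^ s * Q) = 0 := by rw [← hQ, hXP]
  have hid : aeval a (u * X ^ s) * aeval a (u * X ^ s) = aeval a (u * X ^ s) := by
    rw [← map_mul]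
    have : (u * X ^ s) * (u * X ^ s) = u * X ^ s - (u * v) * (X ^ s * Q) := by
      linear_combination (u * X ^ s) * huv
    rw [this, map_sub, map_mul (aeval a) (u * v), hzero, mul_zero, sub_zero]
  have h0 := hno _ he hid
  refine ⟨s, ?_⟩
  have h1 : aeval a (X ^ s : ℚ[X]) = aeval a (X ^ s * (u * X ^ s + v * Q)) := by rw [huv, mul_one]
  have h2 : X ^ s * (u * X ^ s + v * Q) = X ^ s * (u * X ^ s) + v * (X ^ s * Q) := by ring
  rw [h2, map_add, map_mul, map_mul (aeval a) v, h0, hzero, mul_zero, mul_zero, add_zero] at h1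
  simpa using h1

/-- In an `sl_2`-triple `(e, h, f)` with `e` nilpotent the element `h` is algebraic. -/
theorem exists_aeval_of_sl2 {e h f : E} (hef : e * f - f * e = h)
    (hhe : h * e - e * h = (2 : ℚ) • e) (hhf : h * f - f * h = -((2 : ℚ) • f)) {N : ℕ}
    (hN : e ^ N = 0) : ∃ P : ℚ[X], P ≠ 0 ∧ aeval h P = 0 := by
  have hf1 : h * f = f * (h - (2 : ℚ) • 1) := by
    rw [mul_sub, mul_smul_comm, mul_one, ← sub_eq_zero, ← sub_eq_zero.2 hhf]
    abel
  have hhe1 : h * e = e * (h + (2 : ℚ) • 1) := by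
    rw [mul_add, mul_smul_comm, mul_one, ← sub_eq_zero, ← sub_eq_zero.2 hhe]
    abel
  have hef1 : e * f = f * e + h := by rw [← hef]; abel
  -- `P(h) f = f P(h - 2)`
  have hPf : ∀ P : ℚ[X], aeval h P * f = f * aeval h (P.comp (X - C 2)) := by
    intro P
    induction P using Polynomial.induction_on' with
    | add p q hp hq => rw [map_add, add_mul, hp, hq, add_comp, map_add, mul_add]
    | monomial n c =>
      have hpow : ∀ n : ℕ, h ^ n * f = f * (h - (2 : ℚ) • 1) ^ n := by
        intro n
        induction n with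
        | zero => simp
        | succ n ih => rw [pow_succ, mul_assoc, hf1, ← mul_assoc, ih, mul_assoc, ← pow_succ]
      have h2 : aeval h (X - C (2 : ℚ)) = h - (2 : ℚ) • 1 := by
        rw [map_sub, aeval_X, aeval_C, Algebra.algebraMap_eq_smul_one]
      rw [aeval_monomial, monomial_comp, map_mul, map_pow, h2, aeval_C, mul_assoc, hpow,
        ← mul_assoc, ← mul_assoc, Algebra.commutes]
  -- `h e^m = e^m (h + 2 m)`
  have hhem : ∀ m : ℕ, h * e ^ m = e ^ m * (h + (2 * m : ℚ) • 1) := by
    intro m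
    induction m with
    | zero => simp
    | succ m ih =>
      rw [pow_succ, ← mul_assoc, ih, mul_assoc, add_mul, hhe1, smul_mul_assoc, one_mul, mul_assoc]
      congr 1
      simp only [mul_add, mul_smul_comm, mul_one]
      push_cast
      module
  -- `e^(m+1) f = f e^(m+1) + (m + 1) e^m (h + m)`
  have hef' : ∀ m : ℕ, e ^ (m + 1) * f =
      f * e ^ (m + 1) + (m + 1 : ℚ) • (e ^ m * (h + (m : ℚ) • 1)) := by
    intro m
    induction m with
    | zero => simp [hef1]
    | succ m ih =>
      have e1 : e ^ (m + 1 + 1) * f = e * (e ^ (m + 1) * f) := by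
        rw [pow_succ' e (m + 1), mul_assoc]
      have e2 : e * (f * e ^ (m + 1)) = f * e ^ (m + 1 + 1) + h * e ^ (m + 1) := by
        rw [← mul_assoc, hef1, add_mul, mul_assoc, ← pow_succ']
      have e3 : e * (e ^ m * (h + (m : ℚ) • 1)) = e ^ (m + 1) * (h + (m : ℚ) • 1) := by
        rw [← mul_assoc, ← pow_succ']
      rw [e1, ih, mul_add, mul_smul_comm, e2, e3, hhem]
      simp only [mul_add, mul_smul_comm, mul_one]
      push_cast
      module
  -- descending induction
  have key : ∀ d m : ℕ, m + d = N → ∃ P : ℚ[X], P ≠ 0 ∧ e ^ m * aeval h P = 0 := by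
    intro d
    induction d with
    | zero =>
      intro m hm
      refine ⟨1, one_ne_zero, ?_⟩
      rw [show m = N by omega, hN, zero_mul]
    | succ d ih =>
      intro m hm
      obtain ⟨P, hP, hP2⟩ := ih (m + 1) (by omega)
      have hc : P.comp (X - C (2 : ℚ)) ≠ 0 := by
        rw [Ne, comp_eq_zero_iff]
        rintro (h1 | ⟨_, h1⟩)
        · exact hP h1
        · have := congrArg natDegree h1
          rw [natDegree_X_sub_C, natDegree_C] at this
          omega
      have hm1 : (X + C (m : ℚ)) ≠ 0 := X_add_C_ne_zero _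
      refine ⟨(X + C (m : ℚ)) * P.comp (X - C 2) * P, mul_ne_zero (mul_ne_zero hm1 hc) hP, ?_⟩
      have h1 : e ^ (m + 1) * f * aeval h (P.comp (X - C 2)) = 0 := by
        rw [mul_assoc, ← hPf, ← mul_assoc, hP2, zero_mul]
      rw [hef', add_mul] at h1
      have h2 := congrArg (· * aeval h P) h1
      simp only [add_mul, zero_mul] at h2
      have h3 : f * e ^ (m + 1) * aeval h (P.comp (X - C 2)) * aeval h P = 0 := by
        rw [mul_assoc, ← map_mul, mul_comm (P.comp _) P, map_mul, mul_assoc f, ← mul_assoc (e ^ _),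
          hP2, zero_mul, mul_zero]
      rw [h3, zero_add, smul_mul_assoc, smul_mul_assoc] at h2
      have h4 : (m + 1 : ℚ) ≠ 0 := by positivity
      have h5 := (smul_eq_zero.1 h2).resolve_left h4
      rw [map_mul, map_mul, map_add, aeval_X, aeval_C, Algebra.algebraMap_eq_smul_one, ← mul_assoc,
        ← mul_assoc]
      exact h5
  obtain ⟨P, hP, hP2⟩ := key N 0 (by omega)
  exact ⟨P, hP, by simpa using hP2⟩

/-- a polynomial in an algebraic element is algebraic -/
theorem exists_aeval_aeval {h : E} {P : ℚ[X]} (hP : P ≠ 0) (hP2 : aeval h P = 0) (U : ℚ[X]) :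
    ∃ Q : ℚ[X], Q ≠ 0 ∧ aeval (aeval h U) Q = 0 := by
  have h1 : IsAlgebraic ℚ h := ⟨P, hP, hP2⟩
  have h2 : IsIntegral ℚ h := h1.isIntegral
  have h3 : IsIntegral ℚ (aeval h U) := by
    refine IsIntegral.of_mem_of_fg (Algebra.adjoin ℚ {h}) h2.fg_adjoin_singleton _ ?_
    exact aeval_mem_adjoin_singleton ℚ h
  obtain ⟨Q, hQ, hQ2⟩ := h3.isAlgebraic
  exact ⟨Q, hQ, hQ2⟩

omit [Algebra ℚ E] in
/-- `w = e w + w e` with `e` nilpotent implies `w = 0` -/
theorem eq_zero_of_eq_add {e w : E} (h : w = e * w + w * e) (he : IsNilpotent e) : w = 0 := by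
  obtain ⟨s, hs⟩ := he
  have key : ∀ d m : ℕ, m + d = s → e ^ m * w = 0 := by
    intro d
    induction d with
    | zero => intro m hm; rw [show m = s by omega, hs, zero_mul]
    | succ d ih =>
      intro m hm
      have h1 := ih (m + 1) (by omega)
      have h2 : e ^ m * w = e ^ m * w * e := by
        conv_lhs => rw [h, mul_add, ← mul_assoc, ← pow_succ, h1, zero_add, ← mul_assoc]
      have h3 : ∀ k : ℕ, e ^ m * w = e ^ m * w * e ^ k := by
        intro k
        induction k with
        | zero => simp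
        | succ k ihk => rw [pow_succ, ← mul_assoc, ← ihk, ← h2]
      rw [h3 s, hs, mul_zero]
  simpa using key s 0 (by omega)

/-- **Theorem.** Let `(e, h, f)` be an `sl_2`-triple with `e` nilpotent, `κ` an element with
`κ² = 1` which commutes with `h`, and `w` an element which commutes with `h` and anticommutes with
`κ`. If `κ` is a polynomial in `h` modulo a space `J` closed under multiplication (and by `κ` and
`h`) which contains no idempotent except `0`, then `w = 0`. -/
theorem eq_zero_of_anticommute (J : Submodule ℚ E) (hmul : ∀ a ∈ J, ∀ b ∈ J, a * b ∈ J)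
    (hno : ∀ e ∈ J, e * e = e → e = 0) {e h f κ w : E} (hef : e * f - f * e = h)
    (hhe : h * e - e * h = (2 : ℚ) • e) (hhf : h * f - f * h = -((2 : ℚ) • f)) {N : ℕ}
    (hN : e ^ N = 0) (hκ : κ * κ = 1) (hκh : κ * h = h * κ) (hwh : w * h = h * w)
    (hκw : κ * w = -(w * κ)) (hκJ : ∀ a ∈ J, κ * a ∈ J) {U : ℚ[X]}
    (hU : aeval h U - κ ∈ J) : w = 0 := by
  obtain ⟨P, hP, hP2⟩ := exists_aeval_of_sl2 hef hhe hhf hN
  have hcomm : ∀ x : E, x * h = h * x → ∀ V : ℚ[X], x * aeval h V = aeval h V * x := by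
    intro x hx V
    have hpow : ∀ n : ℕ, x * h ^ n = h ^ n * x := fun n => ((show Commute x h from hx).pow_right n)
    induction V using Polynomial.induction_on' with
    | add p q hp hq => rw [map_add, mul_add, add_mul, hp, hq]
    | monomial n c =>
      rw [aeval_monomial, mul_assoc, ← hpow, ← mul_assoc, ← mul_assoc, Algebra.commutes]
  obtain ⟨u, hu⟩ : ∃ u, u = aeval h U := ⟨_, rfl⟩
  have hκu : κ * u = u * κ := by rw [hu]; exact hcomm κ hκh U
  have hwu : w * u = u * w := by rw [hu]; exact hcomm w hwh U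
  rw [← hu] at hU
  have hu2 : u * u - 1 ∈ J := by
    have e1 : u * u - 1 = (u - κ) * (u - κ) + (κ * (u - κ) + κ * (u - κ)) := by
      rw [← hκ]
      have : (u - κ) * (u - κ) + (κ * (u - κ) + κ * (u - κ)) =
          u * u - κ * κ + (κ * u - u * κ) := by noncomm_ring
      rw [this, hκu, sub_self, add_zero]
    rw [e1]
    exact J.add_mem (hmul _ hU _ hU) (J.add_mem (hκJ _ hU) (hκJ _ hU))
  have hη : IsNilpotent (u * u - 1) := by
    obtain ⟨Q, hQ, hQ2⟩ := exists_aeval_aeval hP hP2 (U * U - 1)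
    rw [map_sub, map_mul, map_one, ← hu] at hQ2
    exact isNilpotent_of_aeval J hmul hno hu2 hQ hQ2
  obtain ⟨g, hg⟩ : ∃ g, g = κ * u := ⟨_, rfl⟩
  have hg2 : g * g = u * u := by
    have : g * g = κ * (u * κ) * u := by rw [hg]; noncomm_ring
    rw [this, ← hκu, ← mul_assoc, hκ, one_mul]
  have hwg : w * g = -(g * w) := by
    have e1 : w * κ = -(κ * w) := by rw [hκw, neg_neg]
    rw [hg, ← mul_assoc, e1, neg_mul, mul_assoc, hwu, ← mul_assoc]
  obtain ⟨e', he'⟩ : ∃ e', e' = (1 / 2 : ℚ) • (1 - g) := ⟨_, rfl⟩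
  have he'J : e' ∈ J := by
    rw [he']
    refine J.smul_mem _ ?_
    have : 1 - g = -(κ * (u - κ)) := by rw [mul_sub, hκ, hg]; abel
    rw [this]
    exact J.neg_mem (hκJ _ hU)
  have he'2 : e' * e' - e' = (1 / 4 : ℚ) • (u * u - 1) := by
    rw [he', smul_mul_smul_comm, ← hg2]
    have : (1 - g) * (1 - g) = (g * g - 1) + (2 : ℚ) • (1 - g) := by
      rw [two_smul]; noncomm_ring
    rw [this]
    module
  have he'n : IsNilpotent e' := by
    obtain ⟨s, hs⟩ := hη
    have hX : (X ^ 2 - X : ℚ[X]) ≠ 0 := by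
      have : (X ^ 2 - X : ℚ[X]) = X * (X - C 1) := by rw [map_one]; ring
      rw [this]
      exact mul_ne_zero X_ne_zero (X_sub_C_ne_zero _)
    refine isNilpotent_of_aeval J hmul hno he'J (P := (X ^ 2 - X) ^ s) (pow_ne_zero _ hX) ?_
    rw [map_pow, map_sub, map_pow, aeval_X, pow_two, he'2, _root_.smul_pow, hs, smul_zero]
  refine eq_zero_of_eq_add (e := e') ?_ he'n
  rw [he', smul_mul_assoc, mul_smul_comm, ← smul_add, mul_sub, sub_mul, hwg, one_mul, mul_one]
  have : w - g * w + (w - -(g * w)) = (2 : ℚ) • w := by rw [two_smul]; abel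
  rw [this, smul_smul]
  norm_num

end Pool.Agent.Helper70.NP
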